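import Pool.Agent.K7.H74.AG.Stm

set_option autoImplicit false

/-! Jobs SALL and TALL of project AG. -/

open MeasureTheory Finset

namespace Pool.Agent.K7.H4.AG

open Pool.Agent.K7.H74.AG
open Pool.Agent.K7.H74.AF (mx)

theorem meas_SS (hM : StMeas) (k t i : ℕ) (δ : ℝ) : MeasurableSet {a : Fin t → ℝ | SS k t i δ a} := by
  simp only [SS, Set.setOf_exists, Set.setOf_forall]
  refine MeasurableSet.iUnion fun C => MeasurableSet.iInter fun b => MeasurableSet.iInter fun _ =>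
    MeasurableSet.iInter fun J => MeasurableSet.iInter fun l => MeasurableSet.iInter fun _ =>
    MeasurableSet.iInter fun _ => ?_
  exact hM.2.2.2.2.2.1 k t b l _

theorem meas_TT (hM : StMeas) (k j : ℕ) (δ ε η : ℝ) :
    MeasurableSet {a : Fin (k + j) → ℝ | TT k j δ ε η a} := by
  simp only [TT, Set.setOf_exists, Set.setOf_forall]
  refine MeasurableSet.iUnion fun C => MeasurableSet.iInter fun b => MeasurableSet.iInter fun _ =>
    MeasurableSet.iInter fun J => MeasurableSet.iInter fun l => MeasurableSet.iInter fun _ =>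
    MeasurableSet.iInter fun _ => ?_
  exact hM.2.2.2.2.2.2.1 k (k + j) b η l _

theorem meas_LL (hM : StMeas) (k j : ℕ) (δ ε η : ℝ) :
    MeasurableSet {a : Fin (k + j) → ℝ | LL k j δ ε η a} := by
  simp only [LL, Set.setOf_exists, Set.setOf_forall]
  refine MeasurableSet.iUnion fun C => MeasurableSet.iInter fun b => MeasurableSet.iInter fun _ =>
    MeasurableSet.iInter fun J => MeasurableSet.iInter fun l => MeasurableSet.iInter fun _ =>
    MeasurableSet.iInter fun _ => ?_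
  exact hM.2.2.2.2.2.2.2 k (k + j) b η l _

theorem ae_seg (m : ℕ) (hm : 1 ≤ m) : ∀ᵐ β ∂(seg m), 0 < β ∧ 1 / (m : ℝ) ≤ β ∧ β ≤ m := by
  have hm' : (0 : ℝ) < m := by exact_mod_cast hm
  have h : ∀ᵐ β ∂(seg m), β ∈ Set.Icc (1 / (m : ℝ)) m := ae_restrict_mem measurableSet_Icc
  filter_upwards [h] with β hβ
  exact ⟨lt_of_lt_of_le (by positivity) hβ.1, hβ.1, hβ.2⟩

/-- JOB SALL -/
theorem sall (hM : StMeas) (hAe : StAe) (hPle : StPle) (hB : StSbase)
    (hSc : StScale) (hSt : StSstep) : StS := by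
  intro k t
  induction t with
  | zero =>
    intro i m δ hk _ hδ _
    exact Filter.Eventually.of_forall fun a => (hB k i δ hk hδ).2 a
  | succ t ih =>
    intro i m δ' hk hm hδ' hδ1
    cases i with
    | zero => exact Filter.Eventually.of_forall fun a => (hB k 0 δ' hk hδ').1 (t + 1) a
    | succ i =>
      obtain ⟨δ, hδ, hδl, hstep⟩ := hSt k t i δ' hk hδ' hδ1
      refine hAe.1 m t (fun a => SS k (t + 1) (i + 1) δ' a) (meas_SS hM k (t + 1) (i + 1) δ') ?_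
      filter_upwards [ih i m δ hk hm hδ hδl, ih (i + 1) m δ hk hm hδ hδl] with a h1 h2
      filter_upwards [hPle k t m δ 1 hk hm hδ le_rfl a, ae_seg m hm] with β h3 h4
      exact hSc k (t + 1) (i + 1) δ' hk hδ' hδ1 _ (hstep a β h4.1 h1 h2 h3.1)

theorem exp_le {j : ℕ} {δ δ' : ℝ} (h : δ' ≤ δ) (C J : ℕ) :
    (C : ℝ) * ((3 : ℝ) ^ J) ^ ((j : ℝ) - δ) ≤ C * ((3 : ℝ) ^ J) ^ ((j : ℝ) - δ') := by
  refine mul_le_mul_of_nonneg_left ?_ (Nat.cast_nonneg _)
  exact Real.rpow_le_rpow_of_exponent_le (one_le_pow₀ (by norm_num)) (by linarith)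

theorem TT_mono {k j : ℕ} {δ δ' ε η : ℝ} {a : Fin (k + j) → ℝ} (h : δ' ≤ δ) (hT : TT k j δ ε η a) :
    TT k j δ' ε η a := by
  obtain ⟨C, hC⟩ := hT
  exact ⟨C, fun b hb J l hJ hl => hC b hb J l hJ ((exp_le h C J).trans hl)⟩

theorem LL_mono {k j : ℕ} {δ δ' ε η : ℝ} {a : Fin (k + j) → ℝ} (h : δ' ≤ δ) (hT : LL k j δ ε η a) :
    LL k j δ' ε η a := by
  obtain ⟨C, hC⟩ := hT
  exact ⟨C, fun b hb J l hJ hl => hC b hb J l hJ ((exp_le h C J).trans hl)⟩

/-- JOB TALL -/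
theorem tall (hTb : StTbase) (hTs : StTstep) (hLs : StLstep) (hS : StS) (hPle : StPle) (hAe : StAe)
    (hM : StMeas) : StT := by
  intro k j m ε hk hj hm
  induction j, hj using Nat.le_induction generalizing ε with
  | base =>
    intro hε
    exact ⟨1, one_pos, fun η h1 h2 => hTb k m ε η hk hm hε h1 h2⟩
  | succ j hj ih =>
    intro hε'
    obtain ⟨ε0, δs, hε0, hδs, hδs1, h⟩ := hTs k j m ε hk hj hm hε'
    obtain ⟨δ, hδ, hT⟩ := ih ε0 hε0
    obtain ⟨δ', hδ', h'⟩ := h δ hδ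
    obtain ⟨ε1, δr, hε1, hδr, hδr1, g⟩ := hLs k j m ε hk hj hm hε'
    obtain ⟨γ, hγ, hL⟩ := ih ε1 hε1
    obtain ⟨γ', hγ', g'⟩ := g γ hγ
    refine ⟨min δ' γ', lt_min hδ' hγ', fun η h1 h2 => ?_⟩
    refine hAe.1 m (k + j) (fun a => TT k (j + 1) (min δ' γ') ε η a ∧ LL k (j + 1) (min δ' γ') ε η a)
      ((meas_TT hM k (j + 1) (min δ' γ') ε η).inter (meas_LL hM k (j + 1) (min δ' γ') ε η)) ?_
    filter_upwards [hT η h1 h2, hL η h1 h2, hS k (k + j) (j + 1) m δs hk hm hδs hδs1,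
      hAe.2.2.1 m (k + j)] with a h3 g3 h4 hCf
    filter_upwards [hPle k (k + j) m δs η hk hm hδs h2 a, hPle k (k + j) m δr η hk hm hδr h2 a,
      ae_seg m hm] with β h5 g5 h6
    exact ⟨TT_mono (min_le_left _ _) (h' η a β h1 h2 hCf h6.2.1 h6.2.2 h3.1 h4 h5.2.1),
      LL_mono (min_le_right _ _) (g' η a β h1 h2 hCf h6.2.1 h6.2.2 g3.2 g5.2.2)⟩

end Pool.Agent.K7.H4.AG
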